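import Pool.Agent.W836.SH.Stm

/-!
Project SH, part HEL: Heller's bound for totally unimodular columns.
-/

open scoped Classical

namespace Pool.Agent.W377.SH

open Pool.Agent.W836.SH

noncomputable section

variable {ι : Type}

lemma TS.subset {V W : Finset (ι → ℝ)} (h : TS V) (hW : W ⊆ V) : TS W :=
  fun k r c hc => h k r c fun j => hW (hc j)

lemma TS.insert_zero {V : Finset (ι → ℝ)} (h : TS V) : TS (insert 0 V) := by
  intro k r c hc
  by_cases h0 : ∃ j, c j = 0
  · obtain ⟨j, hj⟩ := h0
    rw [Matrix.det_eq_zero_of_column_eq_zero j]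
    · simp
    · intro i
      simp [hj]
  · push Not at h0
    exact h k r c fun j => (Finset.mem_insert.1 (hc j)).resolve_left (h0 j)

lemma res_apply_mem {I : Finset ι} {i : ι} (hi : i ∈ I) (v : ι → ℝ) : res I v i = v i := by
  simp [res, hi]

lemma res_apply_notMem {I : Finset ι} {i : ι} (hi : i ∉ I) (v : ι → ℝ) : res I v i = 0 := by
  simp [res, hi]

lemma res_neg (I : Finset ι) (v : ι → ℝ) : res I (-v) = -res I v := by
  funext i
  by_cases hi : i ∈ I <;> simp [res, hi]

lemma res_zero (I : Finset ι) : res I (0 : ι → ℝ) = 0 := by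
  funext i
  by_cases hi : i ∈ I <;> simp [res, hi]

/-- the elements of the projection with two lifts -/
def YY (l : ι) (R : Finset ι) (V : Finset (ι → ℝ)) : Finset (ι → ℝ) :=
  ((pr R V).erase 0).filter (fun y => ∃ v ∈ V, ∃ w ∈ V, res R v = y ∧ res R w = y ∧ v l ≠ w l)

/-- no two lifts with entries `1` and `-1` -/
lemma no_pm {l : ι} {R : Finset ι} {V : Finset (ι → ℝ)} (hl : l ∉ R) (hTS : TS V)
    (hInt : IntOn (insert l R) V) {v w : ι → ℝ} (hv : v ∈ V) (hw : w ∈ V)
    (he : res R v = res R w) (h0 : res R v ≠ 0) (h1 : v l = 1) (h2 : w l = -1) : False := by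
  have : ∃ p ∈ R, v p ≠ 0 := by
    by_contra hc
    push Not at hc
    apply h0
    funext i
    by_cases hi : i ∈ R
    · rw [res_apply_mem hi]; exact hc i hi
    · rw [res_apply_notMem hi]; rfl
  obtain ⟨p, hp, hvp⟩ := this
  have hwp : w p = v p := by
    rw [← res_apply_mem hp w, ← res_apply_mem hp v, he]
  have h3 := hTS 2 ![l, p] ![v, w] (by
    intro j; fin_cases j
    · exact hv
    · exact hw)
  rw [Matrix.det_fin_two] at h3
  simp only [Matrix.of_apply, Matrix.cons_val_zero, Matrix.cons_val_one] at h3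
  rw [h1, h2, hwp] at h3
  have h4 := hInt v hv p (Finset.mem_insert_of_mem hp)
  rcases h4 with h4 | h4 | h4
  · exact hvp h4
  · rw [h4] at h3; norm_num at h3
  · rw [h4] at h3; norm_num at h3

/-- normalised lifts -/
lemma lifts {l : ι} {R : Finset ι} {V : Finset (ι → ℝ)} (hl : l ∉ R) (hTS : TS V)
    (hInt : IntOn (insert l R) V) (hS : Sym V) {y : ι → ℝ} (hy : y ∈ YY l R V) :
    ∃ ε : ℝ, (ε = 1 ∨ ε = -1) ∧ ∃ a ∈ V, ∃ b ∈ V, (∀ i ∈ R, a i = ε * y i) ∧
      (∀ i ∈ R, b i = ε * y i) ∧ a l = 0 ∧ b l = 1 := by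
  obtain ⟨hy1, v, hv, w, hw, hv2, hw2, hne⟩ := Finset.mem_filter.1 hy
  have hy0 : y ≠ 0 := Finset.ne_of_mem_erase hy1
  have hvi : ∀ i ∈ R, v i = y i := fun i hi => by rw [← hv2, res_apply_mem hi]
  have hwi : ∀ i ∈ R, w i = y i := fun i hi => by rw [← hw2, res_apply_mem hi]
  have hvl := hInt v hv l (Finset.mem_insert_self _ _)
  have hwl := hInt w hw l (Finset.mem_insert_self _ _)
  have hvw : res R v = res R w := by rw [hv2, hw2]
  have hv0 : res R v ≠ 0 := by rw [hv2]; exact hy0
  have hw0 : res R w ≠ 0 := by rw [hw2]; exact hy0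
  have pos : ∀ a b : ι → ℝ, a ∈ V → b ∈ V → (∀ i ∈ R, a i = y i) → (∀ i ∈ R, b i = y i) →
      a l = 0 → b l = 1 → ∃ ε : ℝ, (ε = 1 ∨ ε = -1) ∧ ∃ a ∈ V, ∃ b ∈ V,
      (∀ i ∈ R, a i = ε * y i) ∧ (∀ i ∈ R, b i = ε * y i) ∧ a l = 0 ∧ b l = 1 := by
    intro a b ha hb ha2 hb2 ha3 hb3
    exact ⟨1, Or.inl rfl, a, ha, b, hb, fun i hi => by rw [ha2 i hi, one_mul],
      fun i hi => by rw [hb2 i hi, one_mul], ha3, hb3⟩
  have neg : ∀ a b : ι → ℝ, a ∈ V → b ∈ V → (∀ i ∈ R, a i = y i) → (∀ i ∈ R, b i = y i) →
      a l = 0 → b l = -1 → ∃ ε : ℝ, (ε = 1 ∨ ε = -1) ∧ ∃ a ∈ V, ∃ b ∈ V,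
      (∀ i ∈ R, a i = ε * y i) ∧ (∀ i ∈ R, b i = ε * y i) ∧ a l = 0 ∧ b l = 1 := by
    intro a b ha hb ha2 hb2 ha3 hb3
    refine ⟨-1, Or.inr rfl, -a, hS a ha, -b, hS b hb, fun i hi => ?_, fun i hi => ?_, ?_, ?_⟩
    · rw [Pi.neg_apply, ha2 i hi]; ring
    · rw [Pi.neg_apply, hb2 i hi]; ring
    · rw [Pi.neg_apply, ha3]; ring
    · rw [Pi.neg_apply, hb3]; ring
  rcases hvl with h1 | h1 | h1 <;> rcases hwl with h2 | h2 | h2
  · exact absurd (h1.trans h2.symm) hne
  · exact pos v w hv hw hvi hwi h1 h2
  · exact neg v w hv hw hvi hwi h1 h2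
  · exact pos w v hw hv hwi hvi h2 h1
  · exact absurd (h1.trans h2.symm) hne
  · exact (no_pm hl hTS hInt hv hw hvw hv0 h1 h2).elim
  · exact neg w v hw hv hwi hvi h2 h1
  · exact (no_pm hl hTS hInt hw hv hvw.symm hw0 h2 h1).elim
  · exact absurd (h1.trans h2.symm) hne

lemma sum_abs_le {n : ℕ} (t : Fin n → ℝ) (h1 : ∑ j, (if 0 < t j then t j else 0) ≤ 1)
    (h2 : ∑ j, (if 0 < -t j then -t j else 0) ≤ 1) : ∑ j, |t j| ≤ 2 := by
  have : ∑ j, |t j| = ∑ j, (if 0 < t j then t j else 0) + ∑ j, (if 0 < -t j then -t j else 0) := by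
    rw [← Finset.sum_add_distrib]
    refine Finset.sum_congr rfl fun j _ => ?_
    rcases lt_trichotomy (t j) 0 with h | h | h
    · rw [if_neg (not_lt.2 h.le), if_pos (by linarith), abs_of_neg h, zero_add]
    · rw [h]; simp
    · rw [if_pos h, if_neg (by linarith), abs_of_pos h, add_zero]
  linarith

lemma star_YY {l : ι} {R : Finset ι} {V : Finset (ι → ℝ)} (hl : l ∉ R) (hTS : TS V)
    (hInt : IntOn (insert l R) V) (hS : Sym V) : STAR (YY l R V) := by
  intro k r x hx
  by_cases hr : ∃ i, r i ∉ R
  · obtain ⟨i, hi⟩ := hr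
    have : ∀ j : Fin (k + 1),
        |(Matrix.of fun i m => x (j.succAbove m) (r i) : Matrix (Fin k) (Fin k) ℝ).det| = 0 := by
      intro j
      rw [Matrix.det_eq_zero_of_row_eq_zero i]
      · simp
      · intro m
        rw [Matrix.of_apply]
        have h1 := Finset.mem_of_mem_erase (Finset.mem_filter.1 (hx (j.succAbove m))).1
        obtain ⟨v, -, hv⟩ := Finset.mem_image.1 h1
        rw [← hv, res_apply_notMem hi]
    rw [Finset.sum_congr rfl fun j _ => this j]
    simp
  · push Not at hr
    choose ε hε a ha b hb ha2 hb2 ha3 hb3 using fun j => lifts hl hTS hInt hS (hx j)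
    set N : Fin (k + 1) → ℝ := fun j =>
      (Matrix.of fun i m => ε (j.succAbove m) * x (j.succAbove m) (r i) :
        Matrix (Fin k) (Fin k) ℝ).det with hN
    have hNabs : ∀ j, |N j| =
        |(Matrix.of fun i m => x (j.succAbove m) (r i) : Matrix (Fin k) (Fin k) ℝ).det| := by
      intro j
      have h1 := Matrix.det_mul_row (fun m => ε (j.succAbove m))
        (Matrix.of fun i m => x (j.succAbove m) (r i) : Matrix (Fin k) (Fin k) ℝ)
      simp only [Matrix.of_apply] at h1
      show |(Matrix.of fun i m => ε (j.succAbove m) * x (j.succAbove m) (r i) :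
        Matrix (Fin k) (Fin k) ℝ).det| = _
      rw [h1, abs_mul, Finset.abs_prod]
      rw [Finset.prod_eq_one, one_mul]
      intro m _
      rcases hε (j.succAbove m) with h | h <;> rw [h] <;> simp
    have key : ∀ s : Fin (k + 1) → Prop,
        |∑ j : Fin (k + 1), (-1 : ℝ) ^ (j : ℕ) * (if s j then 1 else 0) * N j| ≤ 1 := by
      intro s
      have h1 := hTS (k + 1) (Fin.cons l r) (fun j => if s j then b j else a j) (by
        intro j
        by_cases h : s j
        · simp only [h, if_true]; exact hb j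
        · simp only [h, if_false]; exact ha j)
      rw [Matrix.det_succ_row_zero] at h1
      convert h1 using 2
      refine Finset.sum_congr rfl fun j _ => ?_
      congr 1
      · congr 1
        rw [Matrix.of_apply, Fin.cons_zero]
        by_cases h : s j
        · simp only [h, if_true]; exact (hb3 j).symm
        · simp only [h, if_false]; exact (ha3 j).symm
      · show (Matrix.of fun i m => ε (j.succAbove m) * x (j.succAbove m) (r i) :
          Matrix (Fin k) (Fin k) ℝ).det = _
        congr 1
        ext i m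
        rw [Matrix.of_apply, Matrix.submatrix_apply, Matrix.of_apply, Fin.cons_succ]
        by_cases h : s (j.succAbove m)
        · simp only [h, if_true]; exact (hb2 _ _ (hr i)).symm
        · simp only [h, if_false]; exact (ha2 _ _ (hr i)).symm
    have hT : ∀ j : Fin (k + 1), |(-1 : ℝ) ^ (j : ℕ) * N j| = |N j| := by
      intro j
      rw [abs_mul, abs_pow, abs_neg, abs_one, one_pow, one_mul]
    rw [Finset.sum_congr rfl fun j _ => ((hNabs j).symm.trans (hT j).symm)]
    apply sum_abs_le
    · have h1 := key (fun j => 0 < (-1 : ℝ) ^ (j : ℕ) * N j)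
      refine le_trans (le_of_eq ?_) ((le_abs_self _).trans h1)
      refine Finset.sum_congr rfl fun j _ => ?_
      split_ifs <;> ring
    · have h1 := key (fun j => 0 < -((-1 : ℝ) ^ (j : ℕ) * N j))
      refine le_trans (le_of_eq ?_) ((neg_le_abs _).trans h1)
      rw [← Finset.sum_neg_distrib]
      refine Finset.sum_congr rfl fun j _ => ?_
      split_ifs <;> ring

/-- the symmetric case -/
lemma heller_sym (h1 : S_R1) (h2 : S_TSPR) (ι : Type) (R : Finset ι) : ∀ V : Finset (ι → ℝ),
    TS V → IntOn R V → SuppOn R V → Sym V → 0 ∈ V → V.card ≤ R.card ^ 2 + R.card + 1 := by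
  induction R using Finset.induction_on with
  | empty =>
    intro V _ _ hSu _ _
    have : V ⊆ {0} := by
      intro v hv
      rw [Finset.mem_singleton]
      funext i
      exact hSu v hv i (Finset.notMem_empty i)
    calc V.card ≤ ({0} : Finset (ι → ℝ)).card := Finset.card_le_card this
      _ ≤ _ := by simp
  | insert l R hl ih =>
    intro V hTS hInt hSu hS h0
    -- the projection
    have a1 : TS (pr R V) := (h2 ι V R l hTS).1
    have a2 : IntOn R (pr R V) := by
      intro y hy i hi
      obtain ⟨v, hv, rfl⟩ := Finset.mem_image.1 hy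
      rw [res_apply_mem hi]
      exact hInt v hv i (Finset.mem_insert_of_mem hi)
    have a3 : SuppOn R (pr R V) := by
      intro y hy i hi
      obtain ⟨v, hv, rfl⟩ := Finset.mem_image.1 hy
      exact res_apply_notMem hi v
    have a4 : Sym (pr R V) := by
      intro y hy
      obtain ⟨v, hv, rfl⟩ := Finset.mem_image.1 hy
      rw [← res_neg]
      exact Finset.mem_image_of_mem _ (hS v hv)
    have a5 : (0 : ι → ℝ) ∈ pr R V := by
      rw [← res_zero R]
      exact Finset.mem_image_of_mem _ h0
    have hIH := ih (pr R V) a1 a2 a3 a4 a5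
    -- the elements with two lifts
    have hYsub : YY l R V ⊆ (pr R V).erase 0 := Finset.filter_subset _ _
    have hYsub' : YY l R V ⊆ pr R V := hYsub.trans (Finset.erase_subset _ _)
    have b1 : (YY l R V).card ≤ 2 * R.card := by
      refine h1 ι R (YY l R V) (star_YY hl hTS hInt hS) (TS.subset a1 hYsub') ?_ ?_ ?_ ?_
      · intro y hy
        obtain ⟨hy1, v, hv, w, hw, hv2, hw2, hne⟩ := Finset.mem_filter.1 hy
        refine Finset.mem_filter.2 ⟨Finset.mem_erase.2 ⟨?_, a4 y (Finset.mem_of_mem_erase hy1)⟩,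
          -v, hS v hv, -w, hS w hw, ?_, ?_, ?_⟩
        · exact neg_ne_zero.2 (Finset.ne_of_mem_erase hy1)
        · rw [res_neg, hv2]
        · rw [res_neg, hw2]
        · exact fun h => hne (neg_injective h)
      · exact fun y hy => a2 y (hYsub' hy)
      · exact fun y hy => a3 y (hYsub' hy)
      · exact fun h => (Finset.ne_of_mem_erase (hYsub h)) rfl
    -- fibres
    have hfib : ∀ v ∈ V, ∀ w ∈ V, res R v = res R w → v l = w l → v = w := by
      intro v hv w hw he hlw
      funext i
      by_cases hi : i ∈ R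
      · rw [← res_apply_mem hi v, ← res_apply_mem hi w, he]
      · by_cases hil : i = l
        · rw [hil]; exact hlw
        · rw [hSu v hv i (by simp [hi, hil]), hSu w hw i (by simp [hi, hil])]
    have c0 : ∀ y, (V.filter (fun v => res R v = y)).card ≤ 3 := by
      intro y
      have hinj : Set.InjOn (fun v : ι → ℝ => v l) (V.filter (fun v => res R v = y)) := by
        intro v hv w hw h
        have hv' := Finset.mem_filter.1 hv
        have hw' := Finset.mem_filter.1 hw
        exact hfib v hv'.1 w hw'.1 (hv'.2.trans hw'.2.symm) h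
      rw [← Finset.card_image_of_injOn hinj]
      have : (V.filter (fun v => res R v = y)).image (fun v : ι → ℝ => v l) ⊆ {0, 1, -1} := by
        intro t ht
        obtain ⟨v, hv, rfl⟩ := Finset.mem_image.1 ht
        have := hInt v (Finset.mem_filter.1 hv).1 l (Finset.mem_insert_self _ _)
        simpa using this
      exact (Finset.card_le_card this).trans Finset.card_le_three
    have c1 : ∀ y ∈ (pr R V).erase 0, (V.filter (fun v => res R v = y)).card ≤
        1 + (if y ∈ YY l R V then 1 else 0) := by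
      intro y hy
      have hy0 : y ≠ 0 := Finset.ne_of_mem_erase hy
      by_cases hyY : y ∈ YY l R V
      · rw [if_pos hyY]
        by_contra hc
        push Not at hc
        obtain ⟨u, v, w, hu, hv, hw, huv, huw, hvw⟩ := Finset.two_lt_card_iff.1 hc
        have hu' := Finset.mem_filter.1 hu
        have hv' := Finset.mem_filter.1 hv
        have hw' := Finset.mem_filter.1 hw
        have nuv : u l ≠ v l := fun h => huv (hfib u hu'.1 v hv'.1 (hu'.2.trans hv'.2.symm) h)
        have nuw : u l ≠ w l := fun h => huw (hfib u hu'.1 w hw'.1 (hu'.2.trans hw'.2.symm) h)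
        have nvw : v l ≠ w l := fun h => hvw (hfib v hv'.1 w hw'.1 (hv'.2.trans hw'.2.symm) h)
        have iu := hInt u hu'.1 l (Finset.mem_insert_self _ _)
        have iv := hInt v hv'.1 l (Finset.mem_insert_self _ _)
        have iw := hInt w hw'.1 l (Finset.mem_insert_self _ _)
        have no : ∀ p q : ι → ℝ, (p ∈ V ∧ res R p = y) → (q ∈ V ∧ res R q = y) → p l = 1 →
            q l = -1 → False := by
          intro p q hp hq hp1 hq1
          exact no_pm hl hTS hInt hp.1 hq.1 (hp.2.trans hq.2.symm) (by rw [hp.2]; exact hy0)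
            hp1 hq1
        rcases iu with iu | iu | iu <;> rcases iv with iv | iv | iv <;>
          rcases iw with iw | iw | iw <;>
          first
          | exact nuv (iu.trans iv.symm)
          | exact nuw (iu.trans iw.symm)
          | exact nvw (iv.trans iw.symm)
          | exact no u v hu' hv' iu iv
          | exact no v u hv' hu' iv iu
          | exact no u w hu' hw' iu iw
          | exact no w u hw' hu' iw iu
          | exact no v w hv' hw' iv iw
          | exact no w v hw' hv' iw iv
      · rw [if_neg hyY, add_zero, Finset.card_le_one]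
        intro v hv w hw
        have hv' := Finset.mem_filter.1 hv
        have hw' := Finset.mem_filter.1 hw
        by_contra hne
        apply hyY
        refine Finset.mem_filter.2 ⟨hy, v, hv'.1, w, hw'.1, hv'.2, hw'.2, ?_⟩
        exact fun h => hne (hfib v hv'.1 w hw'.1 (hv'.2.trans hw'.2.symm) h)
    have hsum : V.card = ∑ y ∈ pr R V, (V.filter (fun v => res R v = y)).card :=
      Finset.card_eq_sum_card_image _ _
    have hsum2 : V.card ≤ 3 + ((pr R V).erase 0).card + (YY l R V).card := by
      rw [hsum, ← Finset.add_sum_erase _ _ a5]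
      have e1 : ∑ y ∈ (pr R V).erase 0, (V.filter (fun v => res R v = y)).card ≤
          ((pr R V).erase 0).card + (YY l R V).card := by
        refine (Finset.sum_le_sum c1).trans ?_
        rw [Finset.sum_add_distrib, Finset.sum_const, smul_eq_mul, mul_one,
          Finset.sum_ite_mem, Finset.inter_eq_right.2 hYsub, Finset.sum_const, smul_eq_mul,
          mul_one]
      have := c0 0
      omega
    have hcard : ((pr R V).erase 0).card = (pr R V).card - 1 := Finset.card_erase_of_mem a5
    have hpos : 1 ≤ (pr R V).card := Finset.card_pos.2 ⟨0, a5⟩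
    rw [Finset.card_insert_of_notMem hl]
    have e2 : (R.card + 1) ^ 2 = R.card ^ 2 + 2 * R.card + 1 := by ring
    rw [e2]
    omega

theorem main (h1 : S_R1) (h2 : S_TSPR) : S_HELLER := by
  intro ι R V hTS hInt hSu
  have t1 : TS (V ∪ V.image (fun v => -v)) := by
    by_cases hne : Nonempty ι
    · exact (h2 ι V ∅ (Classical.choice hne) hTS).2.2
    · intro k r c _
      cases k with
      | zero => simp
      | succ k => exact (hne ⟨r 0⟩).elim
  have t2 := TS.insert_zero t1
  have hsub : V ⊆ insert 0 (V ∪ V.image (fun v => -v)) :=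
    Finset.subset_union_left.trans (Finset.subset_insert _ _)
  have hm : ∀ w ∈ insert 0 (V ∪ V.image (fun v => -v)), w = 0 ∨ w ∈ V ∨ -w ∈ V := by
    intro w hw
    rcases Finset.mem_insert.1 hw with h | h
    · exact Or.inl h
    · rcases Finset.mem_union.1 h with h | h
      · exact Or.inr (Or.inl h)
      · obtain ⟨v, hv, rfl⟩ := Finset.mem_image.1 h
        exact Or.inr (Or.inr (by rw [neg_neg]; exact hv))
  refine (Finset.card_le_card hsub).trans (heller_sym h1 h2 ι R _ t2 ?_ ?_ ?_ ?_)
  · intro w hw i hi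
    rcases hm w hw with h | h | h
    · left; rw [h]; rfl
    · exact hInt w h i hi
    · rcases hInt _ h i hi with h | h | h
      · left; rw [Pi.neg_apply] at h; linarith
      · right; right; rw [Pi.neg_apply] at h; linarith
      · right; left; rw [Pi.neg_apply] at h; linarith
  · intro w hw i hi
    rcases hm w hw with h | h | h
    · rw [h]; rfl
    · exact hSu w h i hi
    · have := hSu _ h i hi
      rw [Pi.neg_apply] at this; linarith
  · intro w hw
    rcases hm w hw with h | h | h
    · rw [h, neg_zero]; exact Finset.mem_insert_self _ _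
    · exact Finset.mem_insert_of_mem (Finset.mem_union_right _ (Finset.mem_image_of_mem _ h))
    · exact Finset.mem_insert_of_mem (Finset.mem_union_left _ h)
  · exact Finset.mem_insert_self _ _

end

end Pool.Agent.W377.SH
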